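import Pool.Agent.Q84.JQ.Flip1
import Pool.Agent.Q44.JQ.StmC

set_option autoImplicit false

/-!
Project JQ (helper44), job FLIP.
-/

namespace Pool.Agent.Q84.JQ

open Q44.JQ

/-- **Job JQ-FLIP.** -/
theorem t_FLIP : S_FLIP := by
  intro s V _ _ _ _ D hS hnd R b hR hb hRb h01
  exact flip1 D hS hnd R b hR hb hRb h01

end Pool.Agent.Q84.JQ
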