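import Pool.Agent.Q44.JQ.StmC

set_option autoImplicit false

/-!
Project JQ (helper44), job LCC.
-/

namespace Pool.Agent.Q84.JQ

open Q44.JQ
open Pool.Agent.TH344.JG (LocJ)
open Pool.Agent.Y723.PT (tw LG locJ_iff)

theorem loc_scale {K : Type} [Field K] {m n t : ℕ} (a d : Fin m → ℤ) {ρ : K} (hρ : ρ ≠ 0)
    (ht : (t : K) = ρ * ρ) (h : LocJ K (tw (n : ℤ) a) d) : LocJ K (tw ((n * t : ℕ) : ℤ) a) d := by
  rw [locJ_iff] at h ⊢
  apply LG.scale (inv_ne_zero hρ)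
  have e1 : (fun i => (ρ⁻¹) ^ 2 * ((tw ((n * t : ℕ) : ℤ) a i : ℤ) : K)) =
      fun i => ((tw (n : ℤ) a i : ℤ) : K) := by
    funext i
    unfold tw
    push_cast
    rw [ht]
    field_simp
  rw [e1]
  exact h

/-- **Job JQ-LCC.** -/
theorem t_LCC (hLBL : S_LBL) : S_LCC := by
  intro T hT h2 c ρ t ht y
  have hadd := (hLBL T hT h2).1
  have ht0 : t ≠ 0 := by
    rintro rfl
    exact ht 2 h2 (dvd_zero 2)
  have hcop : ∀ n : ℕ, Cop T n → Cop T (n * t) := by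
    intro n hn p hp h
    rcases (hT p hp).dvd_mul.1 h with h | h
    · exact hn p hp h
    · exact ht p hp h
  refine ⟨?_, ?_⟩
  · rintro ⟨n, z, h1, h2', h3, h4⟩
    have ht' : (0 : ℝ) < t := by exact_mod_cast Nat.pos_of_ne_zero ht0
    exact ⟨n * t, z, hcop n h1, by rw [hadd n t h1 ht, h2'], h3,
      loc_scale _ _ (Real.sqrt_pos.2 ht').ne' (Real.mul_self_sqrt ht'.le).symm h4⟩
  · rintro p _ _ ⟨r, hr⟩ ⟨n, z, h1, h2', h3, h4⟩
    refine ⟨n * t, z, hcop n h1, by rw [hadd n t h1 ht, h2'], h3, loc_scale _ _ ?_ hr h4⟩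
    rintro rfl
    rw [mul_zero] at hr
    exact ht0 (by exact_mod_cast hr)

end Pool.Agent.Q84.JQ
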