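import Mathlib

set_option autoImplicit false

/-!
Project JQ (helper44), job FLIP: two maximal singular subspaces with intersection of codimension one.
-/

namespace Pool.Agent.Q84.JQ

open Module

section

variable {W : Type} [AddCommGroup W] [Module (ZMod 2) W] [Module.Finite (ZMod 2) W]
  {q : W → ZMod 2} {B : LinearMap.BilinForm (ZMod 2) W}

theorem two2 (a : ZMod 2) : a = 0 ∨ a = 1 := by
  revert a
  decide

theorem sing_B (hq : ∀ x y, q (x + y) = q x + q y + B x y) {L : Submodule (ZMod 2) W}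
    (hL : ∀ x ∈ L, q x = 0) {x y : W} (hx : x ∈ L) (hy : y ∈ L) : B x y = 0 := by
  have h := hq x y
  rw [hL x hx, hL y hy, hL _ (L.add_mem hx hy)] at h
  simpa using h.symm

/-- a singular subspace of half the dimension is its own orthogonal space -/
theorem orth_self (hB : B.Nondegenerate) (hq : ∀ x y, q (x + y) = q x + q y + B x y)
    {L : Submodule (ZMod 2) W} (hL : ∀ x ∈ L, q x = 0)
    (hd : 2 * finrank (ZMod 2) L = finrank (ZMod 2) W) : B.orthogonal L = L := by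
  symm
  apply Submodule.eq_of_le_of_finrank_le
  · intro x hx y hy
    exact sing_B hq hL hy hx
  · rw [LinearMap.BilinForm.finrank_orthogonal hB]
    omega

theorem orth_sup (B : LinearMap.BilinForm (ZMod 2) W) (L M : Submodule (ZMod 2) W) :
    B.orthogonal (L ⊔ M) = B.orthogonal L ⊓ B.orthogonal M := by
  apply le_antisymm
  · exact le_inf (LinearMap.BilinForm.orthogonal_le le_sup_left)
      (LinearMap.BilinForm.orthogonal_le le_sup_right)
  · rintro x ⟨h1, h2⟩ y hy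
    obtain ⟨a, ha, b, hb, rfl⟩ := Submodule.mem_sup.1 hy
    show B (a + b) x = 0
    rw [map_add, LinearMap.add_apply, h1 a ha, h2 b hb, add_zero]

/-- `dim (G ∩ C^⊥) + dim C = dim G + dim (G ∩ C)` -/
theorem dim_orth (hB : B.Nondegenerate) {G : Submodule (ZMod 2) W} (hG : B.orthogonal G = G)
    (hd : 2 * finrank (ZMod 2) G = finrank (ZMod 2) W) (C : Submodule (ZMod 2) W) :
    finrank (ZMod 2) (G ⊓ B.orthogonal C : Submodule (ZMod 2) W) + finrank (ZMod 2) C =
      finrank (ZMod 2) G + finrank (ZMod 2) (G ⊓ C : Submodule (ZMod 2) W) := by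
  have h1 : G ⊓ B.orthogonal C = B.orthogonal (G ⊔ C) := by
    rw [orth_sup, hG]
  rw [h1, LinearMap.BilinForm.finrank_orthogonal hB]
  have h2 := Submodule.finrank_sup_add_finrank_inf_eq G C
  have h3 : finrank (ZMod 2) (G ⊔ C : Submodule (ZMod 2) W) ≤ finrank (ZMod 2) W :=
    Submodule.finrank_le _
  omega

/-- every singular subspace is contained in one of half the dimension -/
theorem exists_max (hB : B.Nondegenerate) (hq : ∀ x y, q (x + y) = q x + q y + B x y)
    {G : Submodule (ZMod 2) W} (hG : ∀ x ∈ G, q x = 0)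
    (hd : 2 * finrank (ZMod 2) G = finrank (ZMod 2) W)
    {R : Submodule (ZMod 2) W} (hR : ∀ x ∈ R, q x = 0) : ∃ L : Submodule (ZMod 2) W, R ≤ L ∧
      (∀ x ∈ L, q x = 0) ∧ finrank (ZMod 2) L = finrank (ZMod 2) G := by
  have hGo := orth_self hB hq hG hd
  refine ⟨R ⊔ (G ⊓ B.orthogonal R), le_sup_left, ?_, ?_⟩
  · intro x hx
    obtain ⟨a, ha, b, hb, rfl⟩ := Submodule.mem_sup.1 hx
    have h1 : B a b = 0 := hb.2 a ha
    rw [hq, hR a ha, hG b hb.1, h1]
    rfl
  · have h1 := Submodule.finrank_sup_add_finrank_inf_eq R (G ⊓ B.orthogonal R)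
    have h2 := dim_orth hB hGo hd R
    have h3 : R ⊓ (G ⊓ B.orthogonal R) = G ⊓ R := by
      apply le_antisymm
      · rintro x ⟨hx1, hx2, -⟩
        exact ⟨hx2, hx1⟩
      · rintro x ⟨hx1, hx2⟩
        exact ⟨hx2, hx1, fun y hy => sing_B hq hR hy hx2⟩
    rw [h3] at h1
    omega

theorem sup_sing (hq : ∀ x y, q (x + y) = q x + q y + B x y) {R : Submodule (ZMod 2) W}
    (hR : ∀ x ∈ R, q x = 0) {b : W} (hb : q b = 0) (hRb : ∀ x ∈ R, B x b = 0) :
    ∀ x ∈ R ⊔ Submodule.span (ZMod 2) {b}, q x = 0 := by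
  intro x hx
  obtain ⟨y, hy, z, hz, rfl⟩ := Submodule.mem_sup.1 hx
  obtain ⟨a, rfl⟩ := Submodule.mem_span_singleton.1 hz
  rcases two2 a with rfl | rfl
  · rw [zero_smul, add_zero]
    exact hR y hy
  · rw [one_smul, hq, hR y hy, hb, hRb y hy]
    rfl

/-- **FLIP**, abstract form -/
theorem flip_abs (hB : B.Nondegenerate) (hs : ∀ x y, B x y = B y x)
    (hq : ∀ x y, q (x + y) = q x + q y + B x y)
    {G : Submodule (ZMod 2) W} (hG : ∀ x ∈ G, q x = 0)
    (hd : 2 * finrank (ZMod 2) G = finrank (ZMod 2) W)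
    {R : Submodule (ZMod 2) W} (hR : ∀ x ∈ R, q x = 0) (b : ZMod 2 → W) (hb : ∀ σ, q (b σ) = 0)
    (hRb : ∀ σ, ∀ y ∈ R, B y (b σ) = 0) (h01 : B (b 0) (b 1) = 1) :
    ∃ L : ZMod 2 → Submodule (ZMod 2) W, ∀ σ, R ≤ L σ ∧ b σ ∈ L σ ∧
      finrank (ZMod 2) (L σ) = finrank (ZMod 2) G ∧ (∀ x ∈ L σ, q x = 0) ∧
      ((finrank (ZMod 2) (L (σ + 1) ⊓ G : Submodule (ZMod 2) W) : ℕ) : ZMod 2) =
        ((finrank (ZMod 2) (L σ ⊓ G : Submodule (ZMod 2) W) : ℕ) : ZMod 2) + 1 := by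
  have hGo := orth_self hB hq hG hd
  -- the first subspace
  obtain ⟨L0, hRL0, hL0, hdL0⟩ := exists_max hB hq hG hd
    (sup_sing hq hR (hb 0) (hRb 0))
  have hb0 : b 0 ∈ L0 := hRL0 (Submodule.mem_sup_right (Submodule.mem_span_singleton_self _))
  have hRL : R ≤ L0 := le_sup_left.trans hRL0
  -- the intersection with the orthogonal space of `b 1`
  obtain ⟨P, hP⟩ : ∃ P : Submodule (ZMod 2) W, P = B.orthogonal (Submodule.span (ZMod 2) {b 1}) :=
    ⟨_, rfl⟩
  have hPm : ∀ x, x ∈ P ↔ B (b 1) x = 0 := by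
    intro x
    rw [hP]
    constructor
    · intro h
      exact h _ (Submodule.mem_span_singleton_self _)
    · intro h y hy
      obtain ⟨a, rfl⟩ := Submodule.mem_span_singleton.1 hy
      show B (a • b 1) x = 0
      rw [map_smul, LinearMap.smul_apply, h, smul_zero]
  obtain ⟨C, hC⟩ : ∃ C : Submodule (ZMod 2) W, C = L0 ⊓ P := ⟨_, rfl⟩
  have hCL : C ≤ L0 := hC ▸ inf_le_left
  have hC1 : ∀ x ∈ C, B x (b 1) = 0 := by
    intro x hx
    rw [hC] at hx
    rw [hs]
    exact (hPm x).1 hx.2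
  have hCs : ∀ x ∈ C, q x = 0 := fun x hx => hL0 x (hCL hx)
  have hC0 : ∀ x ∈ C, B x (b 0) = 0 := fun x hx => sing_B hq hL0 (hCL hx) hb0
  have hRC : R ≤ C := by
    intro x hx
    rw [hC]
    exact ⟨hRL hx, (hPm x).2 (by rw [hs]; exact hRb 1 x hx)⟩
  have hb1L0 : b 1 ∉ L0 := by
    intro h
    have := sing_B hq hL0 hb0 h
    rw [h01] at this
    exact one_ne_zero this
  have hb0C : b 0 ∉ C := by
    intro h
    have := hC1 _ h
    rw [h01] at this
    exact one_ne_zero this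
  have hb1C : b 1 ∉ C := fun h => hb1L0 (hCL h)
  have hCsup0 : C ⊔ Submodule.span (ZMod 2) {b 0} = L0 := by
    apply le_antisymm
    · refine sup_le hCL ?_
      rw [Submodule.span_singleton_le_iff_mem]
      exact hb0
    · intro x hx
      rcases two2 (B (b 1) x) with h | h
      · refine Submodule.mem_sup_left ?_
        rw [hC]
        exact ⟨hx, (hPm x).2 h⟩
      · have h1 : x + b 0 ∈ C := by
          rw [hC]
          refine ⟨L0.add_mem hx hb0, (hPm _).2 ?_⟩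
          rw [map_add, h, hs, h01]
          rfl
        refine Submodule.mem_sup.2 ⟨x + b 0, h1, b 0, Submodule.mem_span_singleton_self _, ?_⟩
        rw [add_assoc]
        have h2 : b 0 + b 0 = 0 := by
          have : (2 : ZMod 2) • b 0 = 0 := by
            have e : (2 : ZMod 2) = 0 := by decide
            rw [e, zero_smul]
          rwa [two_smul] at this
        rw [h2, add_zero]
  have hdim : ∀ x : W, x ∉ C → finrank (ZMod 2) (C ⊔ Submodule.span (ZMod 2) {x} :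
      Submodule (ZMod 2) W) = finrank (ZMod 2) C + 1 := by
    intro x hx
    have h1 := Submodule.finrank_sup_add_finrank_inf_eq C (Submodule.span (ZMod 2) {x})
    have h2 : C ⊓ Submodule.span (ZMod 2) {x} = ⊥ := by
      rw [eq_bot_iff]
      rintro y ⟨h3, h4⟩
      obtain ⟨a, rfl⟩ := Submodule.mem_span_singleton.1 h4
      rcases two2 a with rfl | rfl
      · rw [zero_smul]
        exact Submodule.zero_mem _
      · rw [one_smul] at h3
        exact absurd h3 hx
    have h3 : x ≠ 0 := by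
      rintro rfl
      exact hx C.zero_mem
    rw [h2, finrank_bot, finrank_span_singleton h3] at h1
    omega
  obtain ⟨L1, hL1⟩ : ∃ L1 : Submodule (ZMod 2) W, L1 = C ⊔ Submodule.span (ZMod 2) {b 1} :=
    ⟨_, rfl⟩
  have hdC0 := hdim _ hb0C
  rw [hCsup0] at hdC0
  have hdL1 : finrank (ZMod 2) L1 = finrank (ZMod 2) G := by
    rw [hL1, hdim _ hb1C]
    omega
  have hL1s : ∀ x ∈ L1, q x = 0 := by
    rw [hL1]
    exact sup_sing hq hCs (hb 1) hC1
  have hb1 : b 1 ∈ L1 := by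
    rw [hL1]
    exact Submodule.mem_sup_right (Submodule.mem_span_singleton_self _)
  have hCL1 : C ≤ L1 := by
    rw [hL1]
    exact le_sup_left
  have hL0o := orth_self hB hq hL0 (by omega)
  have hL1o := orth_self hB hq hL1s (by omega)
  -- elements orthogonal to `C`
  have hm0 : ∀ x ∈ B.orthogonal C, B (b 0) x = 0 → x ∈ L0 := by
    intro x hx h
    rw [← hL0o, ← hCsup0, orth_sup]
    refine ⟨hx, fun y hy => ?_⟩
    obtain ⟨a, rfl⟩ := Submodule.mem_span_singleton.1 hy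
    show B (a • b 0) x = 0
    rw [map_smul, LinearMap.smul_apply, h, smul_zero]
  have hm1 : ∀ x ∈ B.orthogonal C, B (b 1) x = 0 → x ∈ L1 := by
    intro x hx h
    rw [← hL1o, hL1, orth_sup]
    refine ⟨hx, fun y hy => ?_⟩
    obtain ⟨a, rfl⟩ := Submodule.mem_span_singleton.1 hy
    show B (a • b 1) x = 0
    rw [map_smul, LinearMap.smul_apply, h, smul_zero]
  have hL0C : ∀ x ∈ L0, x ∈ B.orthogonal C := fun x hx y hy => sing_B hq hL0 (hCL hy) hx
  have hL1C : ∀ x ∈ L1, x ∈ B.orthogonal C := fun x hx y hy => sing_B hq hL1s (hCL1 hy) hx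
  have hor : ∀ x ∈ G ⊓ B.orthogonal C, x ∈ L0 ∨ x ∈ L1 := by
    rintro x ⟨hxG, hxC⟩
    by_contra hcon
    push Not at hcon
    have h0 : B (b 0) x = 1 := (two2 _).resolve_left fun h => hcon.1 (hm0 x hxC h)
    have h1 : B (b 1) x = 1 := (two2 _).resolve_left fun h => hcon.2 (hm1 x hxC h)
    have hb0o : b 0 ∈ B.orthogonal C := hL0C _ hb0
    have hb1o : b 1 ∈ B.orthogonal C := hL1C _ hb1
    have h2 : x + (b 0 + b 1) ∈ L0 := by
      apply hm0
      · exact Submodule.add_mem _ hxC (Submodule.add_mem _ hb0o hb1o)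
      · rw [map_add, map_add, h0, h01, sing_B hq hL0 hb0 hb0]
        decide
    have h3 := hL0 _ h2
    rw [hq, hq (b 0), hG x hxG, hb 0, hb 1, h01, map_add, hs x (b 0), hs x (b 1), h0, h1] at h3
    revert h3
    decide
  -- the dimensions
  have hdo := dim_orth hB hGo hd C
  have hinf : ∀ x, x ∈ L0 → x ∈ L1 → x ∈ C := by
    intro x h0 h1
    rw [hC]
    exact ⟨h0, (hPm x).2 (sing_B hq hL1s hb1 h1)⟩
  have hkey : (L0 ⊓ G = G ⊓ B.orthogonal C ∧ L1 ⊓ G = G ⊓ C) ∨
      (L1 ⊓ G = G ⊓ B.orthogonal C ∧ L0 ⊓ G = G ⊓ C) := by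
    by_cases h : ∀ x ∈ G ⊓ B.orthogonal C, x ∈ L0
    · left
      refine ⟨le_antisymm (fun x hx => ⟨hx.2, hL0C x hx.1⟩) (fun x hx => ⟨h x hx, hx.1⟩),
        le_antisymm (fun x hx => ⟨hx.2, hinf x (h x ⟨hx.2, hL1C x hx.1⟩) hx.1⟩)
          (fun x hx => ⟨hCL1 hx.2, hx.1⟩)⟩
    · right
      push Not at h
      obtain ⟨g, hg, hgL⟩ := h
      have hg1 : g ∈ L1 := (hor g hg).resolve_left hgL
      have h' : ∀ x ∈ G ⊓ B.orthogonal C, x ∈ L1 := by
        intro x hx
        rcases hor x hx with h1 | h1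
        · by_contra h2
          rcases hor _ (Submodule.add_mem _ hx hg) with h3 | h3
          · exact hgL ((Submodule.add_mem_iff_right _ h1).1 h3)
          · exact h2 ((Submodule.add_mem_iff_left _ hg1).1 h3)
        · exact h1
      refine ⟨le_antisymm (fun x hx => ⟨hx.2, hL1C x hx.1⟩) (fun x hx => ⟨h' x hx, hx.1⟩),
        le_antisymm (fun x hx => ⟨hx.2, hinf x hx.1 (h' x ⟨hx.2, hL0C x hx.1⟩)⟩)
          (fun x hx => ⟨hCL hx.2, hx.1⟩)⟩
  have hdiff : finrank (ZMod 2) (L0 ⊓ G : Submodule (ZMod 2) W) =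
      finrank (ZMod 2) (L1 ⊓ G : Submodule (ZMod 2) W) + 1 ∨
      finrank (ZMod 2) (L1 ⊓ G : Submodule (ZMod 2) W) =
      finrank (ZMod 2) (L0 ⊓ G : Submodule (ZMod 2) W) + 1 := by
    rcases hkey with ⟨h1, h2⟩ | ⟨h1, h2⟩
    · left
      rw [h1, h2]
      omega
    · right
      rw [h1, h2]
      omega
  have hpar : ((finrank (ZMod 2) (L1 ⊓ G : Submodule (ZMod 2) W) : ℕ) : ZMod 2) =
        ((finrank (ZMod 2) (L0 ⊓ G : Submodule (ZMod 2) W) : ℕ) : ZMod 2) + 1 ∧
      ((finrank (ZMod 2) (L0 ⊓ G : Submodule (ZMod 2) W) : ℕ) : ZMod 2) =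
        ((finrank (ZMod 2) (L1 ⊓ G : Submodule (ZMod 2) W) : ℕ) : ZMod 2) + 1 := by
    have h2 : ∀ a : ZMod 2, a = a + 1 + 1 := by decide
    rcases hdiff with h | h
    · rw [h]
      push_cast
      exact ⟨h2 _, rfl⟩
    · rw [h]
      push_cast
      exact ⟨rfl, h2 _⟩
  refine ⟨fun σ => if σ = 0 then L0 else L1, fun σ => ?_⟩
  rcases two2 σ with rfl | rfl
  · have e1 : (0 + 1 : ZMod 2) ≠ 0 := by decide
    simp only [if_true, if_neg e1]
    exact ⟨hRL, hb0, hdL0, hL0, hpar.1⟩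
  · have e1 : (1 + 1 : ZMod 2) = 0 := by decide
    have e2 : (1 : ZMod 2) ≠ 0 := by decide
    simp only [if_neg e2, e1, if_true]
    exact ⟨hRC.trans hCL1, hb1, hdL1, hL1s, hpar.2⟩

end

end Pool.Agent.Q84.JQ
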