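import Pool.Agent.Q84.JQ.Flip0
import Pool.Agent.Q44.JQ.Stm

set_option autoImplicit false

/-!
Project JQ (helper44), job FLIP.
-/

namespace Pool.Agent.Q84.JQ

open Module Finset Q44.JQ
open scoped Classical

section

variable {s V : Type} [Fintype s] [AddCommGroup V] [Module (ZMod 2) V]

theorem om_symm {D : Dj s V} (h : D.Sym) (x y : V) : D.ω x y = D.ω y x := by
  have h1 := h.alt (x + y)
  simp only [map_add, LinearMap.add_apply, h.alt, zero_add, add_zero] at h1
  have h2 : ∀ a b : ZMod 2, a + b = 0 → a = b := by decide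
  exact (h2 _ _ h1).symm

/-- the polar form -/
noncomputable def pol (D : Dj s V) : LinearMap.BilinForm (ZMod 2) ((s → V) × (s → V)) :=
  LinearMap.mk₂ (ZMod 2) (fun x y => ∑ t, (D.ω (x.2 t) (y.1 t) + D.ω (x.1 t) (y.2 t)) +
      D.ω (x.2 D.s₀) (y.2 D.s₀))
    (fun x x' y => by
      simp only [Prod.fst_add, Prod.snd_add, Pi.add_apply, map_add, LinearMap.add_apply,
        sum_add_distrib]
      ring)
    (fun a x y => by
      simp only [Prod.smul_fst, Prod.smul_snd, Pi.smul_apply, map_smul, LinearMap.smul_apply,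
        ← smul_add, ← smul_sum])
    (fun x y y' => by
      simp only [Prod.fst_add, Prod.snd_add, Pi.add_apply, map_add, LinearMap.add_apply,
        sum_add_distrib]
      ring)
    (fun a x y => by
      simp only [Prod.smul_fst, Prod.smul_snd, Pi.smul_apply, map_smul, LinearMap.smul_apply,
        ← smul_add, ← smul_sum])

theorem pol_apply (D : Dj s V) (x y : (s → V) × (s → V)) : pol D x y =
    ∑ t, (D.ω (x.2 t) (y.1 t) + D.ω (x.1 t) (y.2 t)) + D.ω (x.2 D.s₀) (y.2 D.s₀) := rfl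

theorem pol_symm {D : Dj s V} (h : D.Sym) (x y : (s → V) × (s → V)) : pol D x y = pol D y x := by
  rw [pol_apply, pol_apply, om_symm h (x.2 D.s₀)]
  congr 1
  refine sum_congr rfl fun t _ => ?_
  rw [om_symm h (x.2 t), om_symm h (x.1 t), add_comm]

theorem q_add {D : Dj s V} (h : D.Sym) (x y : (s → V) × (s → V)) :
    D.q (x + y) = D.q x + D.q y + pol D x y := by
  have h1 : ∀ t, D.ω (y.2 t) (D.T (Pi.single t 1) (x.2 t)) =
      D.ω (x.2 t) (D.T (Pi.single t 1) (y.2 t)) +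
        (if t = D.s₀ then D.ω (x.2 t) (y.2 t) else 0) := by
    intro t
    rw [om_symm h, h.adj]
    congr 1
    by_cases ht : t = D.s₀
    · rw [if_pos ht, ← ht, Pi.single_eq_same, one_mul]
    · rw [if_neg ht, Pi.single_eq_of_ne (fun e => ht e.symm), zero_mul]
  have h2 : ∑ t, (if t = D.s₀ then D.ω (x.2 t) (y.2 t) else 0) = D.ω (x.2 D.s₀) (y.2 D.s₀) := by
    rw [Finset.sum_ite_eq' univ D.s₀ (fun t => D.ω (x.2 t) (y.2 t)), if_pos (mem_univ _)]
  unfold Dj.q
  rw [pol_apply]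
  simp only [Prod.fst_add, Prod.snd_add, Pi.add_apply, map_add, LinearMap.add_apply,
    sum_add_distrib, h1]
  rw [h2]
  have h3 : ∑ t, D.ω (x.1 t) (y.2 t) = ∑ t, D.ω (y.2 t) (x.1 t) :=
    sum_congr rfl fun t _ => om_symm h _ _
  rw [h3]
  have h4 : ∀ a b c d e f g i : ZMod 2, (a + b + (c + d)) + (e + (f + g) + (f + i)) =
      (a + e) + (d + i) + (c + b + g) := by decide
  rw [h4]

theorem pol_nd {D : Dj s V} (h : D.Sym) (hnd : ∀ x, (∀ y, D.ω x y = 0) → x = 0)
    (x : (s → V) × (s → V)) (hx : ∀ y, pol D x y = 0) : x = 0 := by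
  have h2 : x.2 = 0 := by
    funext t
    apply hnd
    intro v
    have h3 := hx (Pi.single t v, 0)
    rw [pol_apply] at h3
    simp only [Pi.zero_apply, map_zero, add_zero] at h3
    rw [Finset.sum_eq_single t] at h3
    · rwa [Pi.single_eq_same] at h3
    · intro u _ hu
      rw [Pi.single_eq_of_ne hu, map_zero]
    · intro hu
      exact absurd (mem_univ _) hu
  have h1 : x.1 = 0 := by
    funext t
    apply hnd
    intro v
    have h3 := hx (0, Pi.single t v)
    rw [pol_apply, h2] at h3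
    simp only [Pi.zero_apply, map_zero, LinearMap.zero_apply, zero_add, add_zero] at h3
    rw [Finset.sum_eq_single t] at h3
    · rwa [Pi.single_eq_same] at h3
    · intro u _ hu
      rw [Pi.single_eq_of_ne hu, map_zero]
    · intro hu
      exact absurd (mem_univ _) hu
  exact Prod.ext h1 h2

theorem pol_nondeg {D : Dj s V} (h : D.Sym) (hnd : ∀ x, (∀ y, D.ω x y = 0) → x = 0) :
    (pol D).Nondegenerate :=
  ⟨fun x hx => pol_nd h hnd x hx, fun x hx => pol_nd h hnd x fun y => by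
    rw [pol_symm h]
    exact hx y⟩

/-- **FLIP** -/
theorem flip1 [Finite V] (D : Dj s V) (hS : D.Sym) (hnd : ∀ x, (∀ y, D.ω x y = 0) → x = 0)
    (R : Submodule (ZMod 2) ((s → V) × (s → V))) (b : ZMod 2 → (s → V) × (s → V))
    (hR : ∀ y ∈ R, D.q y = 0) (hb : ∀ σ, D.q (b σ) = 0) (hRb : ∀ σ, ∀ y ∈ R, D.q (y + b σ) = 0)
    (h01 : D.q (b 0 + b 1) = 1) :
  ∃ 𝓛 : ZMod 2 → Submodule (ZMod 2) ((s → V) × (s → V)), ∀ σ, R ≤ 𝓛 σ ∧ b σ ∈ 𝓛 σ ∧
    Nat.card (𝓛 σ) = Nat.card V ^ Fintype.card s ∧ (∀ y ∈ 𝓛 σ, D.q y = 0) ∧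
    ((finrank (ZMod 2) (({ D with 𝓛 := 𝓛 (σ + 1) } : Dj s V).pm) : ℕ) : ZMod 2) =
      ((finrank (ZMod 2) (({ D with 𝓛 := 𝓛 σ } : Dj s V).pm) : ℕ) : ZMod 2) + 1 := by
  have hfin : Module.Finite (ZMod 2) ((s → V) × (s → V)) := Module.Finite.of_finite
  have hfin2 : Module.Finite (ZMod 2) (s → V) := Module.Finite.of_finite
  have hinj : Function.Injective (LinearMap.inl (ZMod 2) (s → V) (s → V)) := LinearMap.inl_injective
  obtain ⟨G, hG⟩ : ∃ G : Submodule (ZMod 2) ((s → V) × (s → V)),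
      G = LinearMap.range (LinearMap.inl (ZMod 2) (s → V) (s → V)) := ⟨_, rfl⟩
  have hGd : finrank (ZMod 2) G = finrank (ZMod 2) (s → V) := by
    rw [hG]
    exact LinearMap.finrank_range_of_inj hinj
  have hGq : ∀ x ∈ G, D.q x = 0 := by
    intro x hx
    rw [hG] at hx
    obtain ⟨y, rfl⟩ := hx
    unfold Dj.q
    simp
  obtain ⟨L, hL⟩ := flip_abs (pol_nondeg hS hnd) (pol_symm hS) (q_add hS) hGq (by
      rw [hGd, Module.finrank_prod]
      ring) hR b hb (by
      intro σ y hy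
      have h1 := q_add hS y (b σ)
      rw [hRb σ y hy, hR y hy, hb σ] at h1
      simpa using h1.symm) (by
      have h1 := q_add hS (b 0) (b 1)
      rw [h01, hb 0, hb 1] at h1
      simpa using h1.symm)
  have hpm : ∀ M : Submodule (ZMod 2) ((s → V) × (s → V)),
      finrank (ZMod 2) (({ D with 𝓛 := M } : Dj s V).pm) =
      finrank (ZMod 2) (M ⊓ G : Submodule (ZMod 2) ((s → V) × (s → V))) := by
    intro M
    have h1 : M ⊓ G = ((({ D with 𝓛 := M } : Dj s V).pm)).map
        (LinearMap.inl (ZMod 2) (s → V) (s → V)) := by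
      show M ⊓ G = (M.comap (LinearMap.inl (ZMod 2) (s → V) (s → V))).map
        (LinearMap.inl (ZMod 2) (s → V) (s → V))
      rw [Submodule.map_comap_eq, hG, inf_comm]
    rw [h1]
    exact LinearEquiv.finrank_eq (Submodule.equivMapOfInjective _ hinj _)
  refine ⟨L, fun σ => ?_⟩
  obtain ⟨h1, h2, h3, h4, h5⟩ := hL σ
  refine ⟨h1, h2, ?_, h4, ?_⟩
  · rw [Module.natCard_eq_pow_finrank (K := ZMod 2) (V := L σ), h3, hGd,
      ← Module.natCard_eq_pow_finrank (K := ZMod 2) (V := s → V), Nat.card_fun,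
      Nat.card_eq_fintype_card (α := s)]
  · rw [hpm, hpm]
    exact h5

end

end Pool.Agent.Q84.JQ
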